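import Pool.Agent.Helper29.OT.St
import Pool.Agent.Helper84.FEI.App

set_option autoImplicit false

namespace Pool.Agent.Helper64.OT

open Finset Pool.Agent.Helper14.FEM Pool.Agent.Helper3.EMK Pool.Agent.Helper29.TK
  Pool.Agent.Helper29.OT

theorem hSQ (hNA : StNA) (hBT : StBT) (hL6 : StL6) (hSA : StSA) (hSY : StSY) : StSQ := by
  intro k n s hk hT hI hs hn x hx hsum h
  by_cases hbig : (k + 1) * s + 11 * k ^ 3 ≤ n
  · exact Pool.Agent.Helper84.FEI.weights_exact k n s hk hs hbig x hx hsum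
  by_contra hcon
  have hcon' : n.choose k ≤ cnt univ x k 1 + (n - s + 1).choose k := by omega
  have hgap := (hBT k n s hk hs hn).2 h
  have hkn : k ≤ n := le_trans (Nat.le_mul_of_pos_right k hs) hn
  have hn0 : 0 < n := by omega
  have hn0' : (0 : ℝ) < n := by exact_mod_cast hn0
  have hC : (0 : ℝ) < n.choose k := by exact_mod_cast Nat.choose_pos hkn
  have h1 : 1000 * (k : ℝ) ^ 5 / n * n.choose k ≤ 1 * n.choose k := by
    have e1 : (0 : ℝ) ≤ ((k * s - 1).choose k : ℝ) := Nat.cast_nonneg _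
    have e2 : (0 : ℝ) ≤ ((n - s + 1).choose k : ℝ) := Nat.cast_nonneg _
    linarith
  have h2 : 1000 * (k : ℝ) ^ 5 / n ≤ 1 := le_of_mul_le_mul_right h1 hC
  have h3 : 1000 * (k : ℝ) ^ 5 ≤ n := by
    rw [div_le_one hn0'] at h2
    exact h2
  have h4 : 1000 * k ^ 5 ≤ n := by exact_mod_cast h3
  have hk3 : k ^ 3 ≤ k ^ 5 := Nat.pow_le_pow_right (by omega) (by norm_num)
  have hk4 : k ^ 4 ≤ k ^ 5 := Nat.pow_le_pow_right (by omega) (by norm_num)
  have hk2 : k ^ 2 ≤ k ^ 5 := Nat.pow_le_pow_right (by omega) (by norm_num)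
  have hk1 : k ≤ k ^ 5 := Nat.le_self_pow (by norm_num) k
  have hk5 : 0 < k ^ 5 := by positivity
  have hs11 : 11 * k ^ 3 ≤ s := by
    by_contra hlt
    push Not at hlt
    have e1 : (k + 1) * s ≤ (k + 1) * (11 * k ^ 3) := Nat.mul_le_mul_left _ hlt.le
    have e2 : (k + 1) * (11 * k ^ 3) = 11 * k ^ 4 + 11 * k ^ 3 := by ring
    omega
  have hs100 : 100 * k ≤ s := by
    by_contra hlt
    push Not at hlt
    have e1 : (k + 1) * s ≤ (k + 1) * (100 * k) := Nat.mul_le_mul_left _ hlt.le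
    have e2 : (k + 1) * (100 * k) = 100 * k ^ 2 + 100 * k := by ring
    omega
  have hn2 : n ≤ (k + 2) * s := by
    have e1 : (k + 2) * s = (k + 1) * s + s := by ring
    omega
  have hD : (0 : ℝ) < 999 * k ^ 5 / n := by
    have : (0 : ℝ) < k := by exact_mod_cast (by omega : 0 < k)
    positivity
  have hn4 := hNA.2.2.1 k n s hk hs hn (by linarith)
  have hDn : 1200 * (k : ℝ) ^ 4 ≤ n * (999 * k ^ 5 / n) := by
    have e1 : (n : ℝ) * (999 * k ^ 5 / n) = 999 * k ^ 5 := by field_simp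
    rw [e1]
    have e2 : (2 : ℝ) ≤ k := by exact_mod_cast hk
    have e3 : (0 : ℝ) ≤ (k : ℝ) ^ 4 := by positivity
    nlinarith [mul_le_mul_of_nonneg_right e2 e3]
  obtain ⟨hE, hP⟩ := hSA k n s hk hT hI hs hn hn2 x hx hsum (999 * k ^ 5 / n) hD hDn hgap hcon'
  obtain ⟨S, hS1, hS2, hS3⟩ := hSY k n s hk hs hn hn2 hn4 hs100 x hx hsum hE hP
  exact hcon (hL6 n k s hk hs hn x hx hsum S hS1 hS2 hS3)

end Pool.Agent.Helper64.OT
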